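import Mathlib

/-! A rigid Cayley graph of the product of the dihedral group of order six with the integers:
its natural Schreier decoration is invariant under all graph automorphisms. -/

open MeasureTheory

namespace Pool.Agent.Results.MP_a13a55_pr.Exists

/-- `D i u v` means that the edge between `u` and `v` has colour `i` and points from `u` to `v` -/
def IsSchreier {V : Type} (G : SimpleGraph V) {d : ℕ} (D : Fin d → V → V → Prop) : Prop :=
  (∀ i u v, D i u v → G.Adj u v) ∧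
  (∀ u v, G.Adj u v → ∃! p : Fin d × Bool, if p.2 then D p.1 u v else D p.1 v u) ∧
  (∀ i v, ∃! w, D i v w) ∧ (∀ i v, ∃! w, D i w v)

abbrev Γ : Type := DihedralGroup 3 × Multiplicative ℤ

open DihedralGroup Multiplicative in
def s : Fin 8 → Γ :=
  ![(r 1, ofAdd 0), (r 1, ofAdd 1), (sr 0, ofAdd 1), (sr 1, ofAdd 2),
    (r 2, ofAdd 0), (r 2, ofAdd (-1)), (sr 0, ofAdd (-1)), (sr 1, ofAdd (-2))]

lemma s_inj : Function.Injective s := by decide +kernel
lemma s_inv : ∀ k, (s k)⁻¹ = s (k + 4) := by decide +kernel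
lemma s_ne : ∀ k, s k ≠ 1 := by decide +kernel

def G : SimpleGraph Γ where
  Adj u v := ∃ k, v = u * s k
  symm := ⟨by
    rintro u _ ⟨k, rfl⟩
    exact ⟨k + 4, by rw [← s_inv, mul_inv_cancel_right]⟩⟩
  loopless := ⟨by
    rintro u ⟨k, h⟩
    exact s_ne k (by simpa using h)⟩

def f (T : Fin 8 → ℕ) (g : Γ) : ℕ := ∑ k, if g = s k then T k else 0

lemma f_s (T : Fin 8 → ℕ) (k : Fin 8) : f T (s k) = T k := by
  simp [f, s_inj.eq_iff]

lemma f_not (T : Fin 8 → ℕ) {g : Γ} (h : ¬ ∃ k, g = s k) : f T g = 0 := by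
  push Not at h
  simp [f, h]

def Inv (T : Fin 8 → ℕ) : Prop :=
  ∀ (φ : G ≃g G) (u : Γ) (k l : Fin 8), φ (u * s k) = φ u * s l → T k = T l

lemma perm (φ : G ≃g G) (u : Γ) : ∃ π : Fin 8 ≃ Fin 8, ∀ k, φ (u * s k) = φ u * s (π k) := by
  have h : ∀ k, ∃ l, φ (u * s k) = φ u * s l := fun k =>
    φ.map_adj_iff.mpr (show G.Adj u (u * s k) from ⟨k, rfl⟩)
  choose p hp using h
  have hi : Function.Injective p := by
    intro k l e
    have : φ (u * s k) = φ (u * s l) := by rw [hp, hp, e]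
    exact s_inj (mul_left_cancel (φ.injective this))
  exact ⟨Equiv.ofBijective p (Finite.injective_iff_bijective.mp hi), hp⟩

lemma f_inv {T : Fin 8 → ℕ} (hT : Inv T) (φ : G ≃g G) (u v : Γ) :
    f T ((φ u)⁻¹ * φ v) = f T (u⁻¹ * v) := by
  by_cases h : G.Adj u v
  · obtain ⟨l, hl⟩ := φ.map_adj_iff.mpr h
    obtain ⟨k, rfl⟩ := h
    rw [hl, inv_mul_cancel_left, inv_mul_cancel_left, f_s, f_s, hT φ u k l hl]
  · rw [f_not, f_not]
    · rintro ⟨k, hk⟩
      exact h ⟨k, by rw [← hk, mul_inv_cancel_left]⟩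
    · rintro ⟨k, hk⟩
      exact h (φ.map_adj_iff.mp ⟨k, by rw [← hk, mul_inv_cancel_left]⟩)

def step (T : Fin 8 → ℕ) (z : Fin 8) : ℕ :=
  (T z + ∑ x, ∑ y, T x * T y ^ 2 * f T ((s x * s y)⁻¹ * s z) ^ 3) % 101 + 1

lemma inv_step {T : Fin 8 → ℕ} (hT : Inv T) : Inv (step T) := by
  intro φ u k l h
  suffices key : ∑ x, ∑ y, T x * T y ^ 2 * f T ((s x * s y)⁻¹ * s k) ^ 3 =
      ∑ x, ∑ y, T x * T y ^ 2 * f T ((s x * s y)⁻¹ * s l) ^ 3 by
    rw [step, step, hT φ u k l h, key]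
  obtain ⟨π, hπ⟩ := perm φ u
  rw [← Equiv.sum_comp π (fun x => ∑ y, T x * T y ^ 2 * f T ((s x * s y)⁻¹ * s l) ^ 3)]
  refine Finset.sum_congr rfl fun x _ => ?_
  obtain ⟨ρ, hρ⟩ := perm φ (u * s x)
  rw [← Equiv.sum_comp ρ (fun y => T (π x) * T y ^ 2 * f T ((s (π x) * s y)⁻¹ * s l) ^ 3)]
  refine Finset.sum_congr rfl fun y _ => ?_
  have e := f_inv hT φ (u * s x * s y) (u * s k)
  rw [hρ, hπ x, h] at e
  have e1 : (φ u * s (π x) * s (ρ y))⁻¹ * (φ u * s l) = (s (π x) * s (ρ y))⁻¹ * s l := by group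
  have e2 : (u * s x * s y)⁻¹ * (u * s k) = (s x * s y)⁻¹ * s k := by group
  rw [e1, e2] at e
  rw [e, hT φ u x _ (hπ x), hT φ _ y _ (hρ y)]

lemma st1 : step (fun _ => 1) = ![26, 23, 23, 22, 26, 23, 23, 22] := by decide +kernel
lemma st2 : step ![26, 23, 23, 22, 26, 23, 23, 22] = ![17, 31, 85, 59, 79, 85, 31, 59] := by
  decide +kernel
lemma st3 : step ![17, 31, 85, 59, 79, 85, 31, 59] = ![21, 99, 67, 12, 32, 88, 17, 44] := by
  decide +kernel

lemma rigid (φ : G ≃g G) (u : Γ) (k : Fin 8) : φ (u * s k) = φ u * s k := by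
  have h0 : Inv fun _ => 1 := fun _ _ _ _ _ => rfl
  have h1 := inv_step h0
  rw [st1] at h1
  have h2 := inv_step h1
  rw [st2] at h2
  have h3 := inv_step h2
  rw [st3] at h3
  obtain ⟨π, hπ⟩ := perm φ u
  have hi : Function.Injective (![21, 99, 67, 12, 32, 88, 17, 44] : Fin 8 → ℕ) := by
    decide +kernel
  rw [hπ, ← hi (h3 φ u k _ (hπ k))]

def lmul (g : Γ) : G ≃g G where
  toEquiv := Equiv.mulLeft g
  map_rel_iff' := by
    intro u v
    change (∃ k, g * v = g * u * s k) ↔ ∃ k, v = u * s k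
    simp only [mul_assoc, mul_right_inj]

lemma gen : Subgroup.closure (Set.range s) = ⊤ := by
  have hs : ∀ k, s k ∈ Subgroup.closure (Set.range s) := fun k =>
    Subgroup.subset_closure ⟨k, rfl⟩
  have h0 : ∀ a : DihedralGroup 3, ∃ i j k l, (a, 1) = s i * s j * s k * s l ∨
      (a, 1) = s i * s j * s k := by decide +kernel
  have h1 : ((1, Multiplicative.ofAdd 1) : Γ) = s 1 * s 4 := by decide +kernel
  rw [eq_top_iff]
  rintro ⟨a, n⟩ -
  have e : ((a, n) : Γ) = (a, 1) * (1, Multiplicative.ofAdd 1) ^ n.toAdd := by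
    simp [← ofAdd_zsmul]
  rw [e, h1]
  apply mul_mem _ (zpow_mem (mul_mem (hs _) (hs _)) _)
  obtain ⟨i, j, k, l, h | h⟩ := h0 a
  · rw [h]; exact mul_mem (mul_mem (mul_mem (hs _) (hs _)) (hs _)) (hs _)
  · rw [h]; exact mul_mem (mul_mem (hs _) (hs _)) (hs _)

lemma conn : G.Connected := by
  have h : ∀ g : Γ, G.Reachable 1 g := by
    intro g
    have hg : g ∈ Subgroup.closure (Set.range s) := gen ▸ Subgroup.mem_top g
    induction hg using Subgroup.closure_induction_right with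
    | one => rfl
    | mul_right x _ y hy ih =>
      obtain ⟨k, rfl⟩ := hy
      exact ih.trans (SimpleGraph.Adj.reachable ⟨k, rfl⟩)
    | mul_inv_cancel x _ y hy ih =>
      obtain ⟨k, rfl⟩ := hy
      exact ih.trans (SimpleGraph.Adj.reachable ⟨k + 4, by rw [s_inv]⟩)
  exact ⟨fun u v => (h u).symm.trans (h v)⟩

def D (i : Fin 4) (u v : Γ) : Prop := v = u * s (Fin.castLE (by norm_num) i)

lemma schreier : IsSchreier G D := by
  refine ⟨fun i u v h => ⟨_, h⟩, ?_, fun i v => ⟨_, rfl, fun _ h => h⟩,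
    fun i v => ⟨v * (s (Fin.castLE (by norm_num) i))⁻¹, by simp [D], fun w h => ?_⟩⟩
  · rintro u _ ⟨k, rfl⟩
    have key : ∀ k : Fin 8, ∃! p : Fin 4 × Bool,
        if p.2 then s k = s (Fin.castLE (by norm_num) p.1)
        else 1 = s k * s (Fin.castLE (by norm_num) p.1) := by
      simp only [ExistsUnique]
      decide +kernel
    have e : ∀ a b : Γ, u = u * a * b ↔ 1 = a * b := by
      intro a b
      rw [mul_assoc, eq_comm, mul_eq_left, eq_comm]
    simpa only [D, mul_right_inj, e] using key k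
  · rw [show v = _ from h, mul_inv_cancel_right]

theorem result : ∃ (V : Type) (_ : Countable V) (G : SimpleGraph V) (d : ℕ), 1 ≤ d ∧
    G.Connected ∧ (∀ v, (G.neighborSet v).encard = 2 * d) ∧
    (∀ u v, ∃ φ : G ≃g G, φ u = v) ∧
    ∃ F : (V → unitInterval) → Fin d → V → V → Prop, Measurable F ∧
      (∀ ω, IsSchreier G (F ω)) ∧
      (∀ (φ : G ≃g G) ω i u v, F (fun x => ω (φ.symm x)) i (φ u) (φ v) ↔ F ω i u v) ∧
      Measure.infinitePi (fun _ : V => (volume : Measure unitInterval))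
        {ω | ∃ (i : Fin d) (x : ℤ → V), Function.Injective x ∧ ∀ n, F ω i (x n) (x (n + 1))}
        = 1 := by
  refine ⟨Γ, inferInstance, G, 4, by norm_num, conn, fun v => ?_, fun u v => ⟨lmul (v * u⁻¹), ?_⟩,
    fun _ => D, measurable_const, fun _ => schreier, fun φ _ i u v => ?_, ?_⟩
  · have : G.neighborSet v = (fun k => v * s k) '' Set.univ := by
      ext w
      simp [G, eq_comm]
    rw [this, Function.Injective.encard_image fun k l h => s_inj (mul_left_cancel h)]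
    simp
    norm_num
  · change v * u⁻¹ * u = v
    simp
  · simp only [D]
    rw [← rigid, φ.injective.eq_iff]
  · have : {ω : Γ → unitInterval | ∃ (i : Fin 4) (x : ℤ → Γ), Function.Injective x ∧
        ∀ n, D i (x n) (x (n + 1))} = Set.univ := by
      apply Set.eq_univ_of_forall
      refine fun _ => ⟨1, fun n => s 1 ^ n, fun m n h => ?_, fun n => zpow_add_one _ _⟩
      have h2 := congrArg (fun g : Γ => g.2.toAdd) h
      simpa [s] using h2
    rw [this, measure_univ]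

end Pool.Agent.Results.MP_a13a55_pr.Exists
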